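import Pool.Agent.Helper9.UNI.Sheet
import Pool.Agent.Helper72.LV.KLS2

/-!
# Row KLS2u of project UNI (MP_9a3c31_nt)

`ST_KLS2` with an explicit constant at the places above 6. Same proof as `Helper72.LV.KLS2`; the
loss there is `C₁ + 3 * L * log q` with `L = ord 6912 + 3 ord 3 + 12 + ord 16 + ord 2`.
-/

set_option autoImplicit false

open Filter Topology NumberField

namespace Pool.Agent.Helper51.UNI

open Pool.Agent.Helper42.LS Pool.Agent.Helper42.LK Pool.Agent.Helper92.LV Pool.Agent.Helper9.UNI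

lemma kls2u_core (hQC : ST_QCI) (hPM : ST_KPM2) (hMN : ST_KMN) (hSC : ST_KSC)
    (F : Type) [Field F] [CharZero F] (v : DV F) (C₁ : ℝ) (hC₁ : 0 ≤ C₁)
    (hPS : ∀ A B : F, dsc A B ≠ 0 → v.nr (6912 * A ^ 3) ≤ v.nr (dsc A B) →
      ∀ x y : ℕ → F, GSeq (0 : F) A B x y →
      ∃ R : ℝ, 0 < R ∧ Real.log R = 1 / 6 * Real.log (v.nr (dsc A B)) ∧ ∀ k : ℕ, 1 ≤ k →
        |4 * Real.log (max (v.nr (x k)) R) - Real.log (max (v.nr (x (2 * k))) R) -
          Real.log (v.nr (4 * cu A B (x k)))| ≤ C₁)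
    (E : ℝ) (hE : C₁ + 3 * (((v.ord 6912 + 3 * v.ord 3 + 12 + v.ord 16 + v.ord 2 : ℤ) : ℝ) *
      Real.log v.q) = E) :
    ∀ A B : F, dsc A B ≠ 0 → ∀ x y : ℕ → F, GSeq (0 : F) A B x y →
    ∃ (w t : ℝ) (n : ℕ) (U f : ℕ → ℝ), 0 ≤ w ∧ |w - dl v.nr A B| ≤ E ∧ 1 ≤ n ∧
    (∃ a : ℤ, (n : ℝ) * t = a) ∧ (w ≠ 0 → n * Real.log v.q ≤ w) ∧
    (∀ k : ℕ, 1 ≤ k → |4 * U k - U (2 * k) - Real.log (v.nr (4 * cu A B (x k)))| ≤ E) ∧
    (∃ C : ℝ, ∀ k : ℕ, 1 ≤ k → |U k - Real.log (max (v.nr (x k)) 1)| ≤ C) ∧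
    QC 0 f ∧
    (∀ k : ℕ, 1 ≤ k →
      |U (12 * k) - (w * B2 (k * t) + 1 / 6 * Real.log (v.nr (dsc A B)) + f k)| ≤ E) := by
  have hlq := v.log_q_pos
  have h20 : 0 ≤ v.ord 2 := v.ord_ofNat 2
  have h30 : 0 ≤ v.ord 3 := v.ord_ofNat 3
  have h6912 : 0 ≤ v.ord 6912 := v.ord_ofNat 6912
  have h160 : 0 ≤ v.ord 16 := v.ord_ofNat 16
  set L : ℤ := v.ord 6912 + 3 * v.ord 3 + 12 + v.ord 16 + v.ord 2 with hL
  have hL0 : 0 ≤ L := by omega
  set C₂ : ℝ := (L : ℝ) * Real.log v.q with hC₂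
  have hC₂0 : 0 ≤ C₂ := mul_nonneg (by exact_mod_cast hL0) hlq.le
  subst hE
  intro A₀ B₀ hD₀ x₀ y₀ hg₀
  obtain ⟨u, hu0, huA, huB, hmin, hdl, -⟩ := hMN F v A₀ B₀ hD₀
  have hg := hSC F A₀ B₀ u x₀ y₀ hu0 hg₀
  have hlogD := klb_log_dsc v hu0 hD₀
  have hD : dsc (u ^ 4 * A₀) (u ^ 6 * B₀) ≠ 0 := by
    rw [klb_dsc]; exact mul_ne_zero (pow_ne_zero _ hu0) hD₀
  -- a potential for the minimal equation suffices
  suffices hkey : ∃ (w t : ℝ) (n : ℕ) (U f : ℕ → ℝ), 0 ≤ w ∧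
      |w - dl v.nr A₀ B₀| ≤ C₁ + 3 * C₂ ∧ 1 ≤ n ∧
      (∃ a : ℤ, (n : ℝ) * t = a) ∧ (w ≠ 0 → n * Real.log v.q ≤ w) ∧
      (∀ k : ℕ, 1 ≤ k → |4 * U k - U (2 * k) -
        Real.log (v.nr (4 * cu (u ^ 4 * A₀) (u ^ 6 * B₀) (u ^ 2 * x₀ k)))| ≤ C₁ + 3 * C₂) ∧
      (∃ C : ℝ, ∀ k : ℕ, 1 ≤ k → |U k - Real.log (max (v.nr (u ^ 2 * x₀ k)) 1)| ≤ C) ∧
      QC 0 f ∧
      (∀ k : ℕ, 1 ≤ k → |U (12 * k) - (w * B2 (k * t) +
        1 / 6 * Real.log (v.nr (dsc (u ^ 4 * A₀) (u ^ 6 * B₀))) + f k)| ≤ C₁ + 3 * C₂) by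
    obtain ⟨w, t, n, U, f, h5, h6, h7, h8, h9, h10, h11, hf, h12⟩ := hkey
    obtain ⟨h13, h14⟩ := kls2_scale v hu0 hg₀ h10 h11
    refine ⟨w, t, n, fun k => U k - 2 * Real.log (v.nr u), f, h5, h6, h7, h8, h9, h13, h14,
      hf, ?_⟩
    intro k hk
    have := h12 k hk
    rw [hlogD] at this
    have e : U (12 * k) - 2 * Real.log (v.nr u) - (w * B2 (k * t) +
        1 / 6 * Real.log (v.nr (dsc A₀ B₀)) + f k) = U (12 * k) - (w * B2 (k * t) +
        1 / 6 * (12 * Real.log (v.nr u) + Real.log (v.nr (dsc A₀ B₀))) + f k) := by ring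
    simp only
    rw [e]; exact this
  set A := u ^ 4 * A₀ with hA
  set B := u ^ 6 * B₀ with hB
  have hAint : v.nr A ≤ 1 := huA
  have hBint : v.nr B ≤ 1 := huB
  have hqc := kls2_qc (hQC F v A B hAint hBint _ _ hg)
  have hDint : v.nr (dsc A B) ≤ 1 := by
    unfold dsc
    refine (v.nr_add_le _ _).trans (max_le ?_ ?_)
    · rw [v.nr_mul, v.nr_pow]
      exact mul_le_one₀ (v.nr_ofNat 4) (pow_nonneg (v.nr_nonneg _) _)
        (pow_le_one₀ (v.nr_nonneg _) hAint)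
    · rw [v.nr_mul, v.nr_pow]
      exact mul_le_one₀ (v.nr_ofNat 27) (pow_nonneg (v.nr_nonneg _) _)
        (pow_le_one₀ (v.nr_nonneg _) hBint)
  have hordD : 0 ≤ v.ord (dsc A B) := (v.nr_le_one_iff hD).1 hDint
  have hlogD2 : Real.log (v.nr (dsc A B)) = -(v.ord (dsc A B) : ℝ) * Real.log v.q := v.log_nr hD
  have hdlD : dl v.nr A₀ B₀ = (v.ord (dsc A B) : ℝ) * Real.log v.q := by
    rw [hdl, hlogD2]; ring
  by_cases hj : v.nr (6912 * A ^ 3) ≤ v.nr (dsc A B)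
  · -- potentially good reduction
    obtain ⟨R, hR0, hRl, hU1⟩ := hPS A B hD hj _ _ hg
    have hsmall : v.ord (dsc A B) ≤ v.ord 6912 + 3 * v.ord 3 + 12 := by
      by_contra hcon
      push Not at hcon
      apply kls_min v hmin
      · by_cases hA0 : A = 0
        · exact Or.inl hA0
        · right
          have hne : 6912 * A ^ 3 ≠ 0 := mul_ne_zero (by norm_num) (pow_ne_zero _ hA0)
          rw [v.nr_of_ne hne, v.nr_of_ne hD, zpow_le_zpow_iff_right₀ v.one_lt_q,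
            v.ord_mul _ _ (by norm_num) (pow_ne_zero _ hA0), v.ord_pow] at hj
          push_cast at hj
          omega
      · right; omega
    have hDb : (v.ord (dsc A B) : ℝ) * Real.log v.q ≤ C₂ := by
      apply mul_le_mul_of_nonneg_right _ hlq.le
      exact_mod_cast (by omega : v.ord (dsc A B) ≤ L)
    have hDn : 0 ≤ (v.ord (dsc A B) : ℝ) * Real.log v.q :=
      mul_nonneg (by exact_mod_cast hordD) hlq.le
    have hRlog : Real.log R = -(1 / 6 * ((v.ord (dsc A B) : ℝ) * Real.log v.q)) := by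
      rw [hRl, hlogD2]; ring
    have hR1 : R ≤ 1 := by
      by_contra hcon
      push Not at hcon
      have := Real.log_pos hcon
      linarith
    refine ⟨0, 0, 1, fun k => Real.log (max (v.nr (u ^ 2 * x₀ k)) R), _, le_rfl, ?_, le_rfl,
      ⟨0, by simp⟩, fun h => absurd rfl h, ?_, ⟨-Real.log R, ?_⟩, hqc, ?_⟩
    · rw [zero_sub, abs_neg, hdlD, abs_of_nonneg hDn]
      linarith
    · intro k hk
      have := hU1 k hk
      linarith
    · intro k hk
      exact kls2_R hR0 hR1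
    · intro k hk
      have h := abs_le.1 (kls2_R (X := v.nr (u ^ 2 * x₀ (12 * k))) hR0 hR1)
      rw [← hRl, abs_le]
      simp only
      constructor <;> linarith [h.1, h.2]
  · push Not at hj
    have hA0 : A ≠ 0 := by
      intro h
      rw [h] at hj
      simp only [ne_eq, OfNat.ofNat_ne_zero, not_false_eq_true, zero_pow, mul_zero,
        v.nr_zero] at hj
      exact absurd (v.nr_nonneg _) (not_le.2 hj)
    have hne : 6912 * A ^ 3 ≠ 0 := mul_ne_zero (by norm_num) (pow_ne_zero _ hA0)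
    have hord : v.ord (6912 * A ^ 3) < v.ord (dsc A B) := by
      rw [v.nr_of_ne hne, v.nr_of_ne hD, zpow_lt_zpow_iff_right₀ v.one_lt_q] at hj
      omega
    have hord2 : v.ord (6912 * A ^ 3) = v.ord 6912 + 3 * v.ord A := by
      rw [v.ord_mul _ _ (by norm_num) (pow_ne_zero _ hA0), v.ord_pow]; rfl
    have hordA : 0 ≤ v.ord A := (v.nr_le_one_iff hA0).1 hAint
    obtain ⟨N, hN⟩ : ∃ N : ℕ, v.ord (6912 * A ^ 3 / dsc A B) = -(N : ℤ) :=
      ⟨(-(v.ord (6912 * A ^ 3 / dsc A B))).toNat, by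
        rw [v.ord_div hne hD, Int.toNat_of_nonneg (by omega)]; ring⟩
    have hN' : (N : ℤ) = v.ord (dsc A B) - v.ord 6912 - 3 * v.ord A := by
      rw [v.ord_div hne hD] at hN; omega
    have hN1 : 1 ≤ N := by omega
    have hAlt : v.ord A < 4 + v.ord 3 := by
      by_contra hcon
      push Not at hcon
      exact kls_min v hmin (Or.inr hcon) (Or.inr (by omega))
    obtain ⟨r, a, ρ, U, hρ0, hρ, hr, hUk, hU1, -⟩ := hPM F v N hN1 A B hD hN _ _ hg
    have hNR : (0 : ℝ) < N := by exact_mod_cast hN1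
    rw [v.ord_mul _ _ (by norm_num) hD] at hr
    have hr0 : 0 ≤ r := by omega
    have hrL : r ≤ L := by omega
    -- the shift
    set M : ℝ := v.q ^ L with hMdef
    have hM1 : 1 ≤ M := one_le_zpow₀ v.one_lt_q.le hL0
    have hlogM : Real.log M = C₂ := by rw [hMdef, Real.log_zpow]
    have hρ1 : 1 ≤ v.nr ρ := by
      rw [v.nr_of_ne hρ0, hρ, neg_neg]; exact one_le_zpow₀ v.one_lt_q.le hr0
    have hρM : v.nr ρ ≤ M := by
      rw [v.nr_of_ne hρ0, hρ, neg_neg]; exact zpow_le_zpow_right₀ v.one_lt_q.le hrL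
    have hx₀ : v.nr (-3 * B / (2 * A)) ≤ M := by
      by_cases hB0 : B = 0
      · rw [hB0, mul_zero, zero_div, v.nr_zero]; linarith
      · have h3n : (-3 : F) ≠ 0 := neg_ne_zero.2 (by norm_num)
        have h2A : 2 * A ≠ 0 := mul_ne_zero (by norm_num) hA0
        have hne2 : -3 * B / (2 * A) ≠ 0 := div_ne_zero (mul_ne_zero h3n hB0) h2A
        have hordB : 0 ≤ v.ord B := (v.nr_le_one_iff hB0).1 hBint
        rw [v.nr_of_ne hne2, v.ord_div (mul_ne_zero h3n hB0) h2A, v.ord_mul _ _ h3n hB0,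
          v.ord_mul _ _ (by norm_num) hA0, v.ord_neg]
        exact zpow_le_zpow_right₀ v.one_lt_q.le (by omega)
    have hshift := fun x : F => kls2_shift v (x := x) hM1 hx₀ hρ1 hρM
    rw [hlogM] at hshift
    refine ⟨N * Real.log v.q, 6 * a / N, N, U, _, by positivity, ?_, hN1,
      ⟨6 * a, by push_cast; field_simp⟩, fun _ => le_rfl, ?_,
      ⟨2 * C₂ + N * Real.log v.q + |(r : ℝ) * Real.log v.q|, ?_⟩, hqc, ?_⟩
    · rw [hdlD, ← sub_mul, abs_mul, abs_of_pos hlq]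
      have h1 : |((N : ℝ) - (v.ord (dsc A B) : ℝ))| ≤ (L : ℝ) := by
        have h2 : |((N : ℤ) - v.ord (dsc A B))| ≤ L := by
          rw [abs_le]; omega
        exact_mod_cast h2
      have h3 := mul_le_mul_of_nonneg_right h1 hlq.le
      linarith
    · intro k hk
      rw [hU1 k hk, add_sub_cancel_left, sub_self, abs_zero]
      positivity
    · intro k hk
      have h1 := abs_le.1 (hshift (u ^ 2 * x₀ k))
      have h2 := abs_le.1 (kls2_B2 (k * (a / (2 * N))))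
      have h3 := le_abs_self ((r : ℝ) * Real.log v.q)
      have h4 := neg_abs_le ((r : ℝ) * Real.log v.q)
      have h5 : 0 ≤ (N : ℝ) * Real.log v.q := by positivity
      have h6 : (N : ℝ) * Real.log v.q * (B2 (k * (a / (2 * N))) - 1 / 6) ≤
          N * Real.log v.q := by nlinarith [h2.2]
      have h7 : -((N : ℝ) * Real.log v.q) ≤
          (N : ℝ) * Real.log v.q * (B2 (k * (a / (2 * N))) - 1 / 6) := by nlinarith [h2.1]
      rw [hUk k hk, abs_le]
      constructor <;> linarith [h1.1, h1.2]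
    · intro k hk
      have h1 := abs_le.1 (hshift (u ^ 2 * x₀ (12 * k)))
      have e1 : (((12 * k : ℕ) : ℝ) * ((a : ℝ) / (2 * N))) = k * (6 * a / N) := by
        push_cast; field_simp; ring
      have hrR : (v.ord 16 : ℝ) + (v.ord (dsc A B) : ℝ) = N + 6 * r := by exact_mod_cast hr
      have h3 : (v.ord (dsc A B) : ℝ) = N + 6 * r - v.ord 16 := by linarith
      have h4 : (0 : ℝ) ≤ (v.ord 16 : ℝ) * Real.log v.q :=
        mul_nonneg (by exact_mod_cast h160) hlq.le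
      have h5 : (v.ord 16 : ℝ) * Real.log v.q ≤ C₂ := by
        apply mul_le_mul_of_nonneg_right _ hlq.le
        exact_mod_cast (by omega : v.ord 16 ≤ L)
      rw [hUk (12 * k) (by omega), e1, hlogD2, h3, abs_le]
      constructor <;> linarith [h1.1, h1.2]

/-- (KLS2u) the local package at a place above 6, with an explicit constant -/
theorem KLS2u (hPS : ST_KPS2u) (hQC : ST_QCI) (hPM : ST_KPM2) (hMN : ST_KMN) (hSC : ST_KSC) :
    ST_KLS2u := by
  intro F _ _ v hv A B hD x y hg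
  have hlq := v.log_q_pos
  have h20 : 0 ≤ v.ord 2 := v.ord_ofNat 2
  have h30 : 0 ≤ v.ord 3 := v.ord_ofNat 3
  have e6 : v.ord 6 = v.ord 2 + v.ord 3 := by
    rw [← v.ord_mul _ _ (by norm_num) (by norm_num)]
    norm_num
  have e16 : v.ord 16 = 4 * v.ord 2 := by
    have h := v.ord_pow 2 4
    push_cast at h
    rw [← h]
    norm_num
  have e6912 : v.ord 6912 = 8 * v.ord 2 + 3 * v.ord 3 := by
    have h2 := v.ord_pow 2 8
    have h3 := v.ord_pow 3 3
    push_cast at h2 h3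
    rw [← h2, ← h3, ← v.ord_mul _ _ (by norm_num) (by norm_num)]
    norm_num
  obtain ⟨s, hs⟩ : ∃ s : ℝ, s = -Real.log (v.nr 6) := ⟨_, rfl⟩
  have hs1 : s = (v.ord 2 + v.ord 3 : ℤ) * Real.log v.q := by
    rw [hs, v.log_nr (by norm_num), e6]
    ring
  have hs0 : 0 ≤ s := by
    rw [hs1]
    exact mul_nonneg (by exact_mod_cast (by omega : 0 ≤ v.ord 2 + v.ord 3)) hlq.le
  have hL : (((v.ord 6912 + 3 * v.ord 3 + 12 + v.ord 16 + v.ord 2 : ℤ) : ℝ) *
      Real.log v.q) ≤ 25 * s := by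
    rw [hs1, ← mul_assoc]
    apply mul_le_mul_of_nonneg_right _ hlq.le
    exact_mod_cast (by omega : v.ord 6912 + 3 * v.ord 3 + 12 + v.ord 16 + v.ord 2 ≤
      25 * (v.ord 2 + v.ord 3))
  obtain ⟨w, t, n, U, f, h1, h2, h3, h4, h5, h6, h7, h8, h9⟩ :=
    kls2u_core hQC hPM hMN hSC F v (100 * s) (by positivity)
      (fun A B hD hj x y hg => by rw [hs]; exact hPS F v A B hD hj x y hg) _ rfl A B hD x y hg
  have hE : 100 * s + 3 * (((v.ord 6912 + 3 * v.ord 3 + 12 + v.ord 16 + v.ord 2 : ℤ) : ℝ) *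
      Real.log v.q) ≤ 200 * s := by linarith
  rw [← hs]
  exact ⟨w, t, n, U, f, h1, h2.trans hE, h3, h4, h5, fun k hk => (h6 k hk).trans hE, h7, h8,
    fun k hk => (h9 k hk).trans hE⟩

end Pool.Agent.Helper51.UNI
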