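import Pool.Agent.Helper9.UNI.Sheet
import Pool.Agent.Helper3.LV.FIN

/-!
# Row LVu of project UNI (MP_9a3c31_nt)

`ST_LV` with a constant that depends on the degree of the number field only. Same proof as
`Helper3.LV.FIN`, with `KMT3u` in place of `KMT2` and `KSMu` in place of `KSM`.
-/

set_option autoImplicit false

open Filter Topology NumberField

namespace Pool.Agent.Helper51.UNI

open Pool.Agent.Helper42.LS Pool.Agent.Helper42.LK Pool.Agent.Helper54.LS
  Pool.Agent.Helper92.LV Pool.Agent.Helper9.UNI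

theorem LVu (hKM : ST_KMT3u) (hCOR : ST_COR) (hCK : ST_CK) (hSM : ST_KSMu) : ST_LVu := by
  intro D
  obtain ⟨C₀, hC₀, hKM⟩ := hKM D
  obtain ⟨cA, RA, hcA, hRA, hA⟩ := fin_A hCK hCOR hC₀
  obtain ⟨cB, RB, hcB, hRB, hB⟩ := fin_B hCK hCOR hC₀
  obtain ⟨R₀, hR₀⟩ : ∃ R₀ : ℝ, R₀ = max RA RB := ⟨_, rfl⟩
  have hR₀1 : 1 ≤ R₀ := by rw [hR₀]; exact hRA.trans (le_max_left _ _)
  obtain ⟨H₀, hH₀⟩ : ∃ H₀ : ℝ, H₀ = 2 * (R₀ ^ 4 + 1 + 3 * C₀) := ⟨_, rfl⟩
  have hH₀0 : 0 < H₀ := by rw [hH₀]; positivity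
  obtain ⟨cs, hcs, hsmall⟩ := hSM D H₀
  obtain ⟨c, hcd⟩ : ∃ c : ℝ, c = min (cs / (1 + H₀)) (min (cA / (1 + C₀)) (cB / 3)) := ⟨_, rfl⟩
  have hc : 0 < c := by
    rw [hcd]; exact lt_min (by positivity) (lt_min (by positivity) (by positivity))
  have hc1 : c ≤ cs / (1 + H₀) := by rw [hcd]; exact min_le_left _ _
  have hc2 : c ≤ cA / (1 + C₀) := by
    rw [hcd]; exact (min_le_right _ _).trans (min_le_left _ _)
  have hc3 : c ≤ cB / 3 := by
    rw [hcd]; exact (min_le_right _ _).trans (min_le_right _ _)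
  refine ⟨c, hc, ?_⟩
  intro K _ _ hKD A B hD x y e hg he
  obtain ⟨hLD0, H, hLDH, hHK, hHK2, V, Vf, w, t, n, hM, hS, hX, -⟩ :=
    hKM K hKD A B hD x y e hg he
  have hHK0 : 0 ≤ HK A B := by linarith
  obtain ⟨X, hXd⟩ : ∃ X : ℝ, X = 1 + HK A B := ⟨_, rfl⟩
  have hX1 : 1 ≤ X := by rw [hXd]; linarith
  have hX0 : 0 < X := by linarith
  rw [← hXd]
  have hpow : X ^ (-(1 / 2 : ℝ)) = 1 / √X := by
    rw [Real.rpow_neg hX0.le, ← Real.sqrt_eq_rpow, one_div]
  have hsX1 : 1 ≤ √X := Real.one_le_sqrt.2 hX1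
  have hsX : √X ^ 2 = X := Real.sq_sqrt hX0.le
  by_cases hHs : HK A B ≤ H₀
  · have h1 := hsmall K hKD A B hD hHs x y e hg he
    have h2 : c * (1 + H₀) ≤ e := by
      rw [le_div_iff₀ (by positivity)] at hc1
      linarith
    constructor
    · rw [hpow]
      calc c * (1 / √X) ≤ c * 1 := by
            apply mul_le_mul_of_nonneg_left _ hc.le
            rw [div_le_one (by linarith)]
            exact hsX1
        _ ≤ c * (1 + H₀) := mul_le_mul_of_nonneg_left (by linarith) hc.le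
        _ ≤ e := h2
    · intro E hE _
      have hE3 : 1 ≤ E ^ 3 := one_le_pow₀ hE
      calc c * X / E ^ 3 ≤ c * X := div_le_self (by positivity) hE3
        _ ≤ c * (1 + H₀) := mul_le_mul_of_nonneg_left (by rw [hXd]; linarith) hc.le
        _ ≤ e := h2
  push Not at hHs
  have he0 : 0 < e := by
    obtain ⟨c', hc', h'⟩ := hSM D (HK A B)
    exact lt_of_lt_of_le hc' (h' K hKD A B hD le_rfl x y e hg he)
  have htot := abs_le.1 hM.total
  obtain ⟨W, hW⟩ : ∃ W : ℝ, W = ∑ v ∈ V, w v := ⟨_, rfl⟩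
  rw [← hW] at htot
  have hWbig : R₀ ^ 4 + 1 + 2 * C₀ ≤ W := by linarith
  have hR4 : 1 ≤ R₀ ^ 4 := one_le_pow₀ hR₀1
  have hW0 : 0 < W := by linarith
  have hXW : X ≤ 3 * W := by rw [hXd]; linarith
  have hWX : W ≤ (1 + C₀) * X := by
    rw [hXd]; nlinarith
  obtain ⟨r, hr⟩ : ∃ r : ℝ, r = √(√W) := ⟨_, rfl⟩
  have hr0 : 0 ≤ r := by rw [hr]; positivity
  have hr2 : r ^ 2 = √W := by rw [hr]; exact Real.sq_sqrt (Real.sqrt_nonneg _)
  have hr4 : r ^ 4 = W := by
    calc r ^ 4 = (r ^ 2) ^ 2 := by ring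
      _ = W := by rw [hr2]; exact Real.sq_sqrt hW0.le
  have hRr : R₀ ≤ r := by
    apply le_of_pow_le_pow_left₀ (by norm_num : (4 : ℕ) ≠ 0) hr0
    rw [hr4]; linarith
  have hRAr : RA ≤ r := le_trans (by rw [hR₀]; exact le_max_left _ _) hRr
  have hRBr : RB ≤ r := le_trans (by rw [hR₀]; exact le_max_right _ _) hRr
  have hAA := hA he0.le hM hS r hRAr (by rw [hr4, hW])
  have hpart1 : c * (1 / √X) ≤ e := by
    refine le_trans ?_ hAA
    rw [hr2]
    have hsW : √W ≤ (1 + C₀) * √X := by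
      rw [Real.sqrt_le_left (by positivity)]
      calc W ≤ (1 + C₀) * X := hWX
        _ ≤ (1 + C₀) ^ 2 * X := by
          apply mul_le_mul_of_nonneg_right _ hX0.le
          nlinarith
        _ = ((1 + C₀) * √X) ^ 2 := by rw [mul_pow, hsX]
    have hsW0 : 0 < √W := Real.sqrt_pos.2 hW0
    rw [mul_one_div, div_le_div_iff₀ (by linarith) hsW0]
    calc c * √W ≤ (cA / (1 + C₀)) * ((1 + C₀) * √X) :=
          mul_le_mul hc2 hsW hsW0.le (by positivity)
      _ = cA * √X := by field_simp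
  constructor
  · rw [hpow]; exact hpart1
  · intro E hE hEX
    have hE0 : 0 < E := by linarith
    by_cases hEs : √X ≤ E
    · refine le_trans ?_ hpart1
      rw [mul_one_div, div_le_div_iff₀ (by positivity) (by linarith)]
      calc c * X * √X = c * √X ^ 3 := by
            rw [show √X ^ 3 = √X ^ 2 * √X by ring, hsX]; ring
        _ ≤ c * E ^ 3 := by
            apply mul_le_mul_of_nonneg_left _ hc.le
            exact pow_le_pow_left₀ (by linarith) hEs 3
    · push Not at hEs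
      have hE2 : E ^ 2 ≤ 3 * r ^ 4 := by
        rw [hr4]
        calc E ^ 2 ≤ √X ^ 2 := pow_le_pow_left₀ hE0.le hEs.le 2
          _ = X := hsX
          _ ≤ 3 * W := hXW
      have h1 := hB he0.le hM hS r hRBr (by rw [hr4, hW]) E hE hE2 (LX A B E) (hX E hE0.le)
        (by
          rw [hr4]
          calc E * LX A B E ≤ c * X := hEX
            _ ≤ cB * (3 * W) := by
              apply mul_le_mul _ hXW hX0.le hcB.le
              linarith)
      rw [hr4] at h1
      refine le_trans ?_ h1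
      apply div_le_div_of_nonneg_right _ (by positivity)
      calc c * X ≤ cB / 3 * (3 * W) := mul_le_mul hc3 hXW hX0.le (by positivity)
        _ = cB * W := by ring

end Pool.Agent.Helper51.UNI
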